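import Pool.Agent.H601R3.Final

/-!
There is a complex Banach space `E` for which the algebra of approximable operators on `E` is not
H-unital: its bar complex is not exact at the last place.
-/

namespace Pool.Agent.Results.MP_5c7eee_an.NotHUnital

section bar
variable {A : Type} [AddCommGroup A] [Module ℂ A]

/-- `A^{⊗n}`: the `n`-fold algebraic tensor power of `A` over the complex numbers. -/
def TP (A : Type) [AddCommGroup A] [Module ℂ A] (n : ℕ) : Type :=
  PiTensorProduct ℂ (fun _ : Fin n => A)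

noncomputable instance instAddCommGroupTP (n : ℕ) : AddCommGroup (TP A n) :=
  (inferInstance : AddCommGroup (PiTensorProduct ℂ (fun _ : Fin n => A)))

noncomputable instance instModuleTP (n : ℕ) : Module ℂ (TP A n) :=
  (inferInstance : Module ℂ (PiTensorProduct ℂ (fun _ : Fin n => A)))

/-- The pure tensor `a_0 ⊗ ... ⊗ a_{n-1}`, as a multilinear map. -/
noncomputable def tpr (n : ℕ) : MultilinearMap ℂ (fun _ : Fin n => A) (TP A n) :=
  PiTensorProduct.tprod ℂ

/-- The linear map on `A^{⊗n}` given by a multilinear map. -/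
noncomputable def liftT (n : ℕ) {B : Type} [AddCommGroup B] [Module ℂ B]
    (f : MultilinearMap ℂ (fun _ : Fin n => A) B) : TP A n →ₗ[ℂ] B := PiTensorProduct.lift f

lemma TP_induction {n : ℕ} {p : TP A n → Prop} (h1 : ∀ (r : ℂ) (a : Fin n → A), p (r • tpr n a))
    (h2 : ∀ x y, p x → p y → p (x + y)) (z : TP A n) : p z :=
  PiTensorProduct.induction_on (motive := p) z h1 h2

/-- The tuple `(a_0, ..., a_i a_{i+1}, ..., a_{n+1})`, for the product `μ` on `A`. -/
def contr (μ : A →ₗ[ℂ] A →ₗ[ℂ] A) {n : ℕ} (i : Fin (n + 1)) (a : Fin (n + 2) → A)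
    (j : Fin (n + 1)) : A :=
  if j < i then a j.castSucc else if j = i then μ (a i.castSucc) (a i.succ) else a j.succ

lemma contr_update (μ : A →ₗ[ℂ] A →ₗ[ℂ] A) {n : ℕ} (i : Fin (n + 1)) (a : Fin (n + 2) → A)
    (inst : DecidableEq (Fin (n + 2))) (k : Fin (n + 2)) :
    ∃ (j : Fin (n + 1)) (φ : A →ₗ[ℂ] A), ∀ x, contr μ i (@Function.update _ _ inst a k x) =
      Function.update (contr μ i a) j (φ x) := by
  have hinst : inst = instDecidableEqFin (n + 2) := Subsingleton.elim _ _
  subst hinst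
  rcases lt_trichotomy k i.castSucc with h | h | h
  · -- `k < i`
    have hk : (k : ℕ) < n + 1 := by
      have := i.2
      have h' : (k : ℕ) < (i : ℕ) := h
      omega
    refine ⟨⟨k, hk⟩, LinearMap.id, fun x => ?_⟩
    have h' : (k : ℕ) < (i : ℕ) := h
    funext j
    simp only [contr, Function.update_apply, Fin.ext_iff, Fin.lt_def, Fin.val_castSucc, Fin.val_succ,
      LinearMap.id_apply]
    split_ifs <;> first | rfl | omega
  · subst h
    refine ⟨i, μ.flip (a i.succ), fun x => ?_⟩
    funext j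
    simp only [contr, Function.update_apply, Fin.ext_iff, Fin.lt_def, Fin.val_castSucc, Fin.val_succ,
      LinearMap.flip_apply]
    split_ifs <;> first | rfl | omega
  · have h' : (i : ℕ) < (k : ℕ) := h
    rcases Nat.lt_or_ge ((i : ℕ) + 1) (k : ℕ) with h2 | h2
    · have hk : (k : ℕ) - 1 < n + 1 := by have := k.2; omega
      refine ⟨⟨(k : ℕ) - 1, hk⟩, LinearMap.id, fun x => ?_⟩
      funext j
      simp only [contr, Function.update_apply, Fin.ext_iff, Fin.lt_def, Fin.val_castSucc,
        Fin.val_succ, LinearMap.id_apply]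
      split_ifs <;> first | rfl | omega
    · refine ⟨i, μ (a i.castSucc), fun x => ?_⟩
      funext j
      simp only [contr, Function.update_apply, Fin.ext_iff, Fin.lt_def, Fin.val_castSucc,
        Fin.val_succ]
      split_ifs <;> first | rfl | omega

/-- The pure tensor `a_0 ⊗ ... ⊗ a_i a_{i+1} ⊗ ... ⊗ a_{n+1}`. -/
noncomputable def pure (μ : A →ₗ[ℂ] A →ₗ[ℂ] A) {n : ℕ} (i : Fin (n + 1)) (a : Fin (n + 2) → A) :
    TP A (n + 1) := tpr (n + 1) (contr μ i a)

lemma pure_add (μ : A →ₗ[ℂ] A →ₗ[ℂ] A) {n : ℕ} (i : Fin (n + 1))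
    [inst : DecidableEq (Fin (n + 2))] (a : Fin (n + 2) → A) (k : Fin (n + 2)) (x y : A) :
    pure μ i (Function.update a k (x + y)) =
      pure μ i (Function.update a k x) + pure μ i (Function.update a k y) := by
  obtain ⟨j, φ, h⟩ := contr_update μ i a _ k
  unfold pure
  rw [h, h, h, map_add, MultilinearMap.map_update_add]

lemma pure_smul (μ : A →ₗ[ℂ] A →ₗ[ℂ] A) {n : ℕ} (i : Fin (n + 1))
    [inst : DecidableEq (Fin (n + 2))] (a : Fin (n + 2) → A) (k : Fin (n + 2)) (c : ℂ) (x : A) :
    pure μ i (Function.update a k (c • x)) = c • pure μ i (Function.update a k x) := by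
  obtain ⟨j, φ, h⟩ := contr_update μ i a _ k
  unfold pure
  rw [h, h, map_smul, MultilinearMap.map_update_smul]

/-- The multilinear map `(a_0, ..., a_{n+1}) ↦ a_0 ⊗ ... ⊗ a_i a_{i+1} ⊗ ... ⊗ a_{n+1}`. -/
noncomputable def face (μ : A →ₗ[ℂ] A →ₗ[ℂ] A) (n : ℕ) (i : Fin (n + 1)) :
    MultilinearMap ℂ (fun _ : Fin (n + 2) => A) (TP A (n + 1)) :=
  ⟨pure μ i, pure_add μ i, pure_smul μ i⟩

/-- The linear map `a_0 ⊗ ... ⊗ a_{n+1} ↦ a_0 ⊗ ... ⊗ a_i a_{i+1} ⊗ ... ⊗ a_{n+1}`. -/
noncomputable def faceL (μ : A →ₗ[ℂ] A →ₗ[ℂ] A) (n : ℕ) (i : Fin (n + 1)) :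
    TP A (n + 2) →ₗ[ℂ] TP A (n + 1) := liftT (n + 2) (face μ n i)

/-- The differential `b' : A^{⊗(n+2)} → A^{⊗(n+1)}` of the bar complex,
`b'(a_0 ⊗ ... ⊗ a_{n+1}) = ∑_{i=0}^{n} (-1)^i a_0 ⊗ ... ⊗ a_i a_{i+1} ⊗ ... ⊗ a_{n+1}`. -/
noncomputable def bar (μ : A →ₗ[ℂ] A →ₗ[ℂ] A) (n : ℕ) : TP A (n + 2) →ₗ[ℂ] TP A (n + 1) :=
  ∑ i : Fin (n + 1), (-1 : ℂ) ^ (i : ℕ) • faceL μ n i

lemma bar_zero (μ : A →ₗ[ℂ] A →ₗ[ℂ] A) (a : Fin 2 → A) :
    bar μ 0 (tpr 2 a) = tpr 1 (contr (n := 0) μ 0 a) := by
  have h : bar μ 0 = faceL μ 0 0 := by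
    unfold bar
    rw [Fin.sum_univ_succ]; simp
  rw [h]
  exact PiTensorProduct.lift.tprod (φ := face μ 0 0) a

/-- The algebra `A` with product `μ` is H-unital: the bar complex
`... → A^{⊗3} → A^{⊗2} → A → 0` is exact in every degree, including at `A`. -/
def HUnital (μ : A →ₗ[ℂ] A →ₗ[ℂ] A) : Prop :=
  Function.Surjective (bar μ 0) ∧ ∀ n : ℕ, LinearMap.range (bar μ (n + 1)) = LinearMap.ker (bar μ n)

end bar

section operators
variable (E : Type) [NormedAddCommGroup E] [NormedSpace ℂ E]

/-- The bounded finite-rank operators on `E`. -/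
noncomputable def finiteRank : Submodule ℂ (E →L[ℂ] E) where
  carrier := {S | FiniteDimensional ℂ (LinearMap.range S.toLinearMap)}
  add_mem' := H601R3.FinR.add
  zero_mem' := H601R3.FinR.zero
  smul_mem' := fun c _ hS => H601R3.FinR.smul c hS

/-- The approximable operators, the operator-norm closure of the finite-rank operators. -/
noncomputable def approximable : Submodule ℂ (E →L[ℂ] E) := (finiteRank E).topologicalClosure

/-- `F(E)`, the space of approximable operators on `E`. -/
def FE : Type := approximable E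

noncomputable instance instAddCommGroupFE : AddCommGroup (FE E) :=
  (inferInstance : AddCommGroup (approximable E))

noncomputable instance instModuleFE : Module ℂ (FE E) :=
  (inferInstance : Module ℂ (approximable E))

variable {E}

/-- The underlying bounded operator. -/
def FE.op (S : FE E) : E →L[ℂ] E := Subtype.val (p := fun S => S ∈ approximable E) S

/-- An approximable operator, as an element of `F(E)`. -/
def FE.mk (S : E →L[ℂ] E) (hS : S ∈ approximable E) : FE E := ⟨S, hS⟩

lemma FE.mem (S : FE E) : S.op ∈ approximable E := S.2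

lemma comp_mem (S T : FE E) : S.op ∘L T.op ∈ approximable E := by
  have h1 : ∀ S ∈ finiteRank E, ∀ T : E →L[ℂ] E, S ∘L T ∈ finiteRank E := by
    intro S hS T
    have : FiniteDimensional ℂ (LinearMap.range S.toLinearMap) := hS
    have h : LinearMap.range (S ∘L T).toLinearMap ≤ LinearMap.range S.toLinearMap := by
      rintro _ ⟨x, rfl⟩
      exact ⟨T x, rfl⟩
    exact Submodule.finiteDimensional_of_le h
  have h2 : Continuous (fun S : E →L[ℂ] E => S ∘L T.op) :=
    (ContinuousLinearMap.compL ℂ E E E).flip T.op |>.continuous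
  have hS : S.op ∈ approximable E := S.2
  exact map_mem_closure (f := fun S : E →L[ℂ] E => S ∘L T.op) h2 hS fun S hS => h1 S hS T.op

/-- The composition of two approximable operators. -/
def comp (S T : FE E) : FE E := ⟨S.op ∘L T.op, comp_mem S T⟩

lemma comp_add_left (S S' T : FE E) : comp (S + S') T = comp S T + comp S' T := rfl
lemma comp_smul_left (c : ℂ) (S T : FE E) : comp (c • S) T = c • comp S T := rfl
lemma comp_add_right (S T T' : FE E) : comp S (T + T') = comp S T + comp S T' :=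
  Subtype.ext (ContinuousLinearMap.ext fun _ => map_add S.op _ _)
lemma comp_smul_right (c : ℂ) (S T : FE E) : comp S (c • T) = c • comp S T :=
  Subtype.ext (ContinuousLinearMap.ext fun _ => map_smul S.op _ _)

variable (E)

/-- The product of the algebra `F(E)`, composition, as a bilinear map. -/
noncomputable def product : FE E →ₗ[ℂ] FE E →ₗ[ℂ] FE E :=
  LinearMap.mk₂ ℂ comp comp_add_left comp_smul_left comp_add_right comp_smul_right

end operators

/-- There is a complex Banach space `E` for which the algebra `F(E)` is not H-unital. -/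
theorem result : ∃ (E : Type) (_ : NormedAddCommGroup E) (_ : NormedSpace ℂ E)
    (_ : CompleteSpace E), ¬ HUnital (product E) := by
  refine ⟨H601R3.PP, inferInstance, inferInstance, inferInstance, fun h => ?_⟩
  obtain ⟨T, hT, hT'⟩ := H601R3.good_main H601R3.PP_good
  have hTA : T ∈ approximable H601R3.PP := hT
  apply hT'
  -- the evaluation map `A^{⊗1} → B(E)`
  set ev : TP (FE H601R3.PP) 1 →ₗ[ℂ] (H601R3.PP →L[ℂ] H601R3.PP) :=
    liftT 1 ((show FE H601R3.PP →ₗ[ℂ] (H601R3.PP →L[ℂ] H601R3.PP) from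
      (approximable H601R3.PP).subtype).compMultilinearMap
      (MultilinearMap.ofSubsingleton ℂ (FE H601R3.PP) (FE H601R3.PP)
        (0 : Fin 1) LinearMap.id)) with hev
  have hev1 : ∀ a : Fin 1 → FE H601R3.PP, ev (tpr 1 a) = (a 0).op := by
    intro a
    exact PiTensorProduct.lift.tprod a
  obtain ⟨z, hz⟩ := h.1 (tpr 1 (fun _ => FE.mk T hTA))
  have h1 : ev (bar (product H601R3.PP) 0 z) = T := by rw [hz, hev1]; rfl
  rw [← h1]
  clear h1 hz
  induction z using TP_induction with
  | h1 r a =>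
    have h2 : ev (bar (product H601R3.PP) 0 (tpr 2 a)) = (a 0).op ∘L (a 1).op := by
      rw [bar_zero, hev1]
      rfl
    rw [map_smul, map_smul, h2]
    exact Submodule.smul_mem _ _ (Submodule.subset_span ⟨_, (a 0).mem, _, (a 1).mem, rfl⟩)
  | h2 x y hx hy =>
    rw [map_add, map_add]
    exact Submodule.add_mem _ hx hy

end Pool.Agent.Results.MP_5c7eee_an.NotHUnital
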